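import Pool.Agent.H11.NY.Targets

/-!
# Module C7 of the board ny_modules
-/

set_option autoImplicit false

open Equiv (Perm)

namespace Pool.Agent.H85.NY.C7

open Pool.Agent.H11.NY

/-- an ordered product of operators acts on a joint eigenvector by the product of the
eigenvalues -/
lemma prod_eig {K V : Type} [Field K] [AddCommGroup V] [Module K V] :
    ∀ {m : ℕ} (T : Fin m → Module.End K V) (t : Fin m → K) (v : V),
      (∀ i, T i v = t i • v) → (List.ofFn T).prod v = (∏ i, t i) • v
  | 0, T, t, v, _ => by simp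
  | m + 1, T, t, v, h => by
    rw [List.ofFn_succ, List.prod_cons, Module.End.mul_apply,
      prod_eig (fun i => T i.succ) (fun i => t i.succ) v (fun i => h i.succ), map_smul, h 0,
      smul_smul, Fin.prod_univ_succ, mul_comm]

lemma prod_smul' {K V : Type} [Field K] [AddCommGroup V] [Module K V] :
    ∀ {m : ℕ} (z : Fin m → K) (R : Fin m → Module.End K V),
      (List.ofFn (fun i => z i • R i)).prod = (∏ i, z i) • (List.ofFn R).prod
  | 0, z, R => by simp
  | m + 1, z, R => by
    rw [List.ofFn_succ, List.prod_cons, List.ofFn_succ (f := R), List.prod_cons,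
      prod_smul' (fun i => z i.succ) (fun i => R i.succ), Fin.prod_univ_succ, smul_mul_smul_comm]

lemma pow_val {K : Type} [Field K] {q : ℕ} {ω : K} (hω : ω ^ q = 1) (n : ℕ) :
    ω ^ (n : ZMod q).val = ω ^ n := by
  rw [ZMod.val_natCast]
  conv_rhs => rw [← Nat.div_add_mod n q, pow_add, pow_mul, hω, one_pow, one_mul]

theorem pf_c7 : T_C7 := by
  intro q m L Ω _ _ _ _ ψ K V _ _ _ ρ c ω s a hq hV hker hcan hω hω1 hqK hcyc ha hψa
  have : Fact q.Prime := ⟨hq⟩
  have h1 : ∀ i, ∃ d : L, (ψ d : Perm Ω) = s i ∧ ∃ z : K, z ≠ 0 ∧ c (s i) = z • ρ d :=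
    fun i => (hcan (s i) (hcyc.1 i).1 (hcyc.1 i).2).1
  choose d hd z hz hcz using h1
  -- the ordered product
  have hP : (List.ofFn (fun i => c (s i))).prod = (∏ i, z i) • ρ (List.ofFn d).prod := by
    have e1 : (fun i => c (s i)) = fun i => z i • ρ (d i) := funext hcz
    rw [e1, prod_smul', map_list_prod, List.map_ofFn]
    rfl
  have hψg : ((ψ (List.ofFn d).prod : alternatingGroup Ω) : Perm Ω) = (List.ofFn s).prod := by
    have e1 : ((ψ (List.ofFn d).prod : alternatingGroup Ω) : Perm Ω) =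
        ((alternatingGroup Ω).subtype.comp ψ) (List.ofFn d).prod := rfl
    rw [e1, map_list_prod, List.map_ofFn]
    congr 1
    exact congrArg List.ofFn (funext hd)
  set g := (List.ofFn d).prod with hg
  have hk : g⁻¹ * a ∈ ψ.ker := by
    rw [MonoidHom.mem_ker, map_mul, map_inv]
    have : ψ g = ψ a := Subtype.ext (by rw [hψg, hψa])
    rw [this, inv_mul_cancel]
  obtain ⟨y, hy⟩ := hker _ hk
  have hZ : (∏ i, z i) ≠ 0 := Finset.prod_ne_zero_iff.mpr fun i _ => hz i
  obtain ⟨w, hw⟩ : ∃ w : K, w = y * (∏ i, z i)⁻¹ := ⟨_, rfl⟩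
  have hρa : ∀ v : V, ρ a v = w • (List.ofFn (fun i => c (s i))).prod v := by
    intro v
    have e1 : a = g * (g⁻¹ * a) := by group
    rw [hP, LinearMap.smul_apply, smul_smul, hw, mul_assoc, inv_mul_cancel₀ hZ, mul_one]
    conv_lhs => rw [e1]
    rw [map_mul, Module.End.mul_apply, hy v, map_smul]
  have hpr : IsPrimitiveRoot ω q := by
    have := IsPrimitiveRoot.orderOf ω
    rwa [orderOf_eq_prime hω hω1] at this
  -- action on a joint eigenvector
  have hact : ∀ (χ : Fin m → ZMod q) (v : V), (∀ i, c (s i) v = ω ^ (χ i).val • v) →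
      ρ a v = (w * ω ^ (∑ i, (χ i).val)) • v := by
    intro χ v hv
    rw [hρa, prod_eig (fun i => c (s i)) (fun i => ω ^ (χ i).val) v hv, smul_smul,
      Finset.prod_pow_eq_pow_sum]
  by_cases hex : ∃ (χ : Fin m → ZMod q) (v : V), v ≠ 0 ∧ ∀ i, c (s i) v = ω ^ (χ i).val • v
  · obtain ⟨χ0, v0, hv0, hv1⟩ := hex
    have hpow : ∀ k : ℕ, ρ (a ^ k) v0 = (w * ω ^ (∑ i, (χ0 i).val)) ^ k • v0 := by
      intro k
      induction k with
      | zero => simp
      | succ k ih =>
        rw [pow_succ', map_mul, Module.End.mul_apply, ih, map_smul, hact χ0 v0 hv1, smul_smul,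
          pow_succ]
    have h2 := hpow q
    rw [ha, map_one, Module.End.one_apply, mul_pow, ← pow_mul, mul_comm (∑ i, (χ0 i).val) q,
      pow_mul, hω, one_pow, mul_one] at h2
    have h3 : w ^ q = 1 := by
      have h4 : (w ^ q - 1) • v0 = 0 := by rw [sub_smul, ← h2, one_smul, sub_self]
      rcases smul_eq_zero.mp h4 with h5 | h5
      · exact sub_eq_zero.mp h5
      · exact absurd h5 hv0
    have : NeZero q := ⟨hq.ne_zero⟩
    obtain ⟨i, _, hi⟩ := hpr.eq_pow_of_pow_eq_one h3
    refine ⟨(i : ZMod q), fun χ v hv => ?_⟩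
    rw [hact χ v hv, ← hi, ← pow_add]
    congr 1
    rw [← pow_val hω]
    congr 2
    push_cast
    congr 1
    exact Finset.sum_congr rfl fun j _ => by rw [ZMod.natCast_val, ZMod.cast_id', id]
  · refine ⟨0, fun χ v hv => ?_⟩
    have : v = 0 := by
      by_contra hne
      exact hex ⟨χ, v, hne, hv⟩
    rw [this, map_zero, smul_zero]

end Pool.Agent.H85.NY.C7
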